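import Pool.Agent.Work.MP_416390_gt.Final

set_option autoImplicit false

open MeasureTheory Module Pool.Agent.Work.MP_416390_gt

namespace Pool.Agent.Results.MP_416390_gt.UnequalEdges

section

variable {F : Type} [NormedAddCommGroup F] [InnerProductSpace ℝ F] [FiniteDimensional ℝ F]

/-- The Lebesgue measure of the Euclidean space `F`: the Haar measure that gives measure one to
the parallelepiped spanned by an orthonormal basis. -/
noncomputable def lebesgue (F : Type) [NormedAddCommGroup F] [InnerProductSpace ℝ F]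
    [FiniteDimensional ℝ F] [MeasurableSpace F] [BorelSpace F] : Measure F :=
  (stdOrthonormalBasis ℝ F).toBasis.addHaar

/-- The orthogonal projection onto `H`, as a map `F → H`. -/
noncomputable def proj (H : Submodule ℝ F) (x : F) : H := H.orthogonalProjectionOnto x

/-- The length of the orthogonal projection of the vector `x` onto `H`. -/
noncomputable def projLength (H : Submodule ℝ F) (x : F) : ℝ := ‖proj H x‖

/-- The Lebesgue measure, taken inside `H`, of the orthogonal projection of the set `s`
onto `H`. -/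
noncomputable def projVolume [MeasurableSpace F] [BorelSpace F] (H : Submodule ℝ F) (s : Set F) :
    ENNReal := lebesgue H (proj H '' s)

end

/-- The linear subspaces of `ℝⁿ`. -/
abbrev Sub (n : ℕ) : Type := Submodule ℝ (EuclideanSpace ℝ (Fin n))

/-- The dimension of a subspace. -/
noncomputable def dim {n : ℕ} (H : Sub n) : ℕ := finrank ℝ H

/-- The unit cube `[0,1]^n`. -/
def cube (n : ℕ) : Set (EuclideanSpace ℝ (Fin n)) := {x | ∀ i, x i ∈ Set.Icc (0 : ℝ) 1}

/-- `F(H)`, the volume inside `H` of the orthogonal projection of the unit cube onto `H`. -/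
noncomputable def cubeVol {n : ℕ} (H : Sub n) : ENNReal := projVolume H (cube n)

/-- `|P_H e_i|`, the length of the projections of the edges of direction `e_i`. -/
noncomputable def edgeLength {n : ℕ} (H : Sub n) (i : Fin n) : ℝ :=
  projLength H (EuclideanSpace.single i (1 : ℝ))

/-- For `(k,n) = (3,7)` there is a `3`-dimensional subspace `H₀` of `ℝ⁷` such that every
`3`-dimensional subspace `H` onto which all the edges of the cube have projections of the same
length satisfies `F(H) < F(H₀)`. So no maximizer of `F` has edge projections of equal length. -/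
theorem result : ∃ H₀ : Sub 7, dim H₀ = 3 ∧
    ∀ H : Sub 7, dim H = 3 → (∀ i j : Fin 7, edgeLength H i = edgeLength H j) →
      cubeVol H < cubeVol H₀ := by
  let rv : Fin 3 → EuclideanSpace ℝ (Fin 7) := fun m => WithLp.toLp 2 (rowR m)
  have hli : LinearIndependent ℝ rv := by
    rw [Fintype.linearIndependent_iff]
    intro g hg
    have e : ∀ i : Fin 7, g 0 * rowR 0 i + g 1 * rowR 1 i + g 2 * rowR 2 i = 0 := by
      intro i
      have h := congrArg (fun x : EuclideanSpace ℝ (Fin 7) => x i) hg
      simpa [Fin.sum_univ_three, rv] using h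
    have e0 := e 0
    have e1 := e 1
    have e2 := e 2
    simp [rowR] at e0 e1 e2
    intro i
    fin_cases i
    · show g 0 = 0
      linarith
    · show g 1 = 0
      linarith
    · show g 2 = 0
      linarith
  have hfin0 : finrank ℝ (Submodule.span ℝ (Set.range rv)) = 3 := by
    rw [finrank_span_eq_card hli]; simp
  refine ⟨Submodule.span ℝ (Set.range rv), hfin0, ?_⟩
  intro H hfin heq
  set H₀ := Submodule.span ℝ (Set.range rv) with hH₀
  let b : OrthonormalBasis (Fin 3) ℝ H := (stdOrthonormalBasis ℝ H).reindex (finCongr hfin)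
  let b₀ : OrthonormalBasis (Fin 3) ℝ H₀ := (stdOrthonormalBasis ℝ H₀).reindex (finCongr hfin0)
  have h1 : cubeVol H = ENNReal.ofReal (T1 (ext7 (col H b)) / 6) := vol_proj H b
  have h2 : cubeVol H₀ = ENNReal.ofReal (T1 (ext7 (col H₀ b₀)) / 6) := vol_proj H₀ b₀
  have heq' : ∀ i j : Fin 7, ‖H.orthogonalProjectionOnto (EuclideanSpace.single i (1 : ℝ))‖ =
      ‖H.orthogonalProjectionOnto (EuclideanSpace.single j (1 : ℝ))‖ := heq
  have hupper : (T1 (ext7 (col H b)) / 6) ^ 2 ≤ 31395 / 1000 := by
    apply equal_norm_bound (col_orth H b)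
      (‖H.orthogonalProjectionOnto (EuclideanSpace.single 0 (1 : ℝ))‖ ^ 2)
    intro i hi
    have h3 : ext7 (col H b) i = col H b ⟨i, hi⟩ := ext7_val (col H b) ⟨i, hi⟩
    rw [h3, heq' 0 ⟨i, hi⟩, norm_proj H b]
  have hlower : 31395 / 1000 < (T1 (ext7 (col H₀ b₀)) / 6) ^ 2 := by
    have hmem : ∀ m, rv m ∈ H₀ := fun m => Submodule.subset_span ⟨m, rfl⟩
    apply lower_bound H₀ b₀ (fun m j => inner ℝ (b₀ j) (⟨rv m, hmem m⟩ : H₀))
    intro i m
    have h3 := b₀.sum_repr' (⟨rv m, hmem m⟩ : H₀)
    have h4 := congrArg (fun x : H₀ => (x : EuclideanSpace ℝ (Fin 7)) i) h3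
    simp only [Submodule.coe_sum, Submodule.coe_smul] at h4
    simp only [col, colR]
    have h5 : (rv m) i = rowR m i := rfl
    rw [← h5, ← h4]
    simp [Fin.sum_univ_three]
  rw [h1, h2]
  have hnn : 0 ≤ T1 (ext7 (col H₀ b₀)) / 6 := by
    rw [T1_eq]
    have := Finset.sum_nonneg (s := Finset.range 35)
      (fun n _ => abs_nonneg (minors (ext7 (col H₀ b₀)) n))
    linarith
  have hlt : T1 (ext7 (col H b)) / 6 < T1 (ext7 (col H₀ b₀)) / 6 :=
    lt_of_pow_lt_pow_left₀ 2 hnn (lt_of_le_of_lt hupper hlower)
  have hpos : 0 < T1 (ext7 (col H₀ b₀)) / 6 := by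
    rcases hnn.eq_or_lt with h | h
    · rw [← h] at hlower; norm_num at hlower
    · exact h
  exact (ENNReal.ofReal_lt_ofReal_iff hpos).2 hlt

end Pool.Agent.Results.MP_416390_gt.UnequalEdges
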